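import Pool.Agent.H42.AP.Defs
import Pool.Agent.H42.AP.All

/-!
# The inequality with truncated counting functions at all algebraic numbers of a given degree

Let `α_1, …, α_q` be different points of `ℙ¹(ℚ)`, `α_l = [a_l : b_l]` with coprime integers, `T` a
finite set of primes, `d ≥ 2`. For an algebraic number `x` of degree `d` let `h(x)` be its absolute
logarithmic height and `N(x) = ∑_{v ∤ T} ∑_l λ⁽¹⁾_v(α_l, x)`, the sum over the primes `v` of the number
field `ℚ(x)`. Q1 for the field `ℚ(x)` says `(q - 2 - ε) h(x) ≤ N(x) + C` with a constant depending on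
the field. Here all the fields of degree `d` are taken together: for `0 ≤ κ ≤ q` and `c` real the set
`Exceptions` of all the `x` of degree `d` of height `H(x) ≤ B` with `N(x) ≤ (q - κ) h(x) + c` has

(1) at most `C B^(d (d + 1 - κ) + δ)` elements if `q ≤ d + 1`;
(2) at most `C B^(d (d + 1) (1 - κ / q) + δ)` elements if `q ≥ d + 1`;
(3) at least `C B^(d (d + 1 - κ))` elements if `q ≥ 1`, `κ < q`, `κ < d + 1` and `B` is large.

So for `q ≤ d + 1` the exponent is exactly `d (d + 1 - κ)`; for `κ = 2`, `q = 3`, the abc conjecture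
over all number fields of degree `d`: `d (d - 1)`, while there are `B^(d (d + 1) + o(1))` algebraic
numbers of degree `d` and height at most `B` (`q = 0`, resp. `κ = 0`).
-/

set_option autoImplicit false

open NumberField IsDedekindDomain

namespace Pool.Agent.Results.MP_4d5ce1_nt.AllFieldsOfDegree

section

variable {K : Type} [Field K] [NumberField K]

/-- the absolute logarithmic height of `y`, i.e. of the point `[y : 1]` -/
noncomputable def height (y : K) : ℝ := Height.logHeight₁ y / Module.finrank ℚ K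

open Classical in
/-- `∑_{v ∤ T} λ⁽¹⁾_v(α, y)` for `α = [a : b]` with coprime integers `a`, `b`, the sum over the primes
`v` of `K` which do not lie above a prime of `T`: `λ⁽¹⁾_v(α, y)` is `log N v / [K : ℚ]` if `y` is
congruent to `α` modulo `v`, i.e. if `|b y - a|_v < max(1, |y|_v)`, and `0` otherwise. -/
noncomputable def counting (T : Finset ℕ) (a b : ℤ) (y : K) : ℝ :=
  (∑ᶠ v : HeightOneSpectrum (𝓞 K),
    if FinitePlace.mk v ((b : K) * y - a) < max 1 (FinitePlace.mk v y) ∧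
        ∀ p ∈ T, p.Prime → (p : 𝓞 K) ∉ v.asIdeal then
      Real.log (Ideal.absNorm v.asIdeal) else 0) / Module.finrank ℚ K

end

/-- the algebraic numbers `x` of degree `d` with `H(x) ≤ B` and
`∑_{v ∤ T} ∑_l λ⁽¹⁾_v(α_l, x) ≤ (q - κ) h(x) + c`, the places `v` and the heights being those of the
number field `ℚ(x)` -/
def Exceptions (d : ℕ) (T : Finset ℕ) {q : ℕ} (a b : Fin q → ℤ) (κ c B : ℝ) : Set ℂ :=
  {x | ∃ (K : Type) (_ : Field K) (_ : NumberField K) (φ : K →+* ℂ) (y : K), φ y = x ∧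
    Module.finrank ℚ K = d ∧ IntermediateField.adjoin ℚ {y} = ⊤ ∧
    height y ≤ Real.log B ∧ ∑ l, counting T (a l) (b l) y ≤ (q - κ) * height y + c}

open Classical in
lemma exceptions_eq {d : ℕ} (hd : 1 ≤ d) (T : Finset ℕ) {q : ℕ} (a b : Fin q → ℤ) (κ c B : ℝ) :
    Exceptions d T a b κ c B = Pool.Agent.H42.AP.Exc d T a b κ (d * c) B := by
  have hd0 : (0 : ℝ) < d := by exact_mod_cast hd
  have hc : ∀ (K : Type) [Field K] [NumberField K] (y : K) (s t : ℤ),
      counting T s t y = Pool.Agent.H42.AP.N1 T s t y / Module.finrank ℚ K := by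
    intro K _ _ y s t
    unfold counting Pool.Agent.H42.AP.N1
    congr 1
    refine finsum_congr fun v => ?_
    unfold Pool.Agent.H42.AP.Close Pool.Agent.H42.AP.Off
    congr
  ext x
  constructor
  · rintro ⟨K, _, _, φ, y, h1, h2, h3, h4, h5⟩
    refine ⟨K, inferInstance, inferInstance, φ, y, h1, h2, ?_, ?_, ?_⟩
    · rw [← h2]
      exact (Field.primitive_element_iff_minpoly_natDegree_eq ℚ y).1 h3
    · unfold height at h4
      rw [h2, div_le_iff₀ hd0] at h4
      linarith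
    · simp only [hc] at h5
      unfold height at h5
      rw [h2, ← Finset.sum_div, div_le_iff₀ hd0] at h5
      refine h5.trans (le_of_eq ?_)
      field_simp
  · rintro ⟨K, _, _, φ, y, h1, h2, h3, h4, h5⟩
    refine ⟨K, inferInstance, inferInstance, φ, y, h1, h2, ?_, ?_, ?_⟩
    · rw [Field.primitive_element_iff_minpoly_natDegree_eq, h2]
      exact h3
    · unfold height
      rw [h2, div_le_iff₀ hd0]
      linarith
    · simp only [hc]
      unfold height
      rw [h2, ← Finset.sum_div, div_le_iff₀ hd0]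
      refine h5.trans (le_of_eq ?_)
      field_simp

/-- **The exceptions among all algebraic numbers of degree `d`.** -/
theorem result (d q : ℕ) (hd : 2 ≤ d) (a b : Fin q → ℤ) (hab : ∀ l, IsCoprime (a l) (b l))
    (hne : ∀ i j, i ≠ j → a i * b j ≠ a j * b i) (T : Finset ℕ) (κ c : ℝ) (hκ : 0 ≤ κ) :
    (∀ δ : ℝ, 0 < δ → q ≤ d + 1 → κ ≤ q → ∃ C : ℝ, ∀ B : ℝ, 1 ≤ B →
      (Exceptions d T a b κ c B).Finite ∧
      ((Exceptions d T a b κ c B).ncard : ℝ) ≤ C * B ^ (d * (d + 1 - κ) + δ)) ∧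
    (∀ δ : ℝ, 0 < δ → d + 1 ≤ q → κ ≤ q → ∃ C : ℝ, ∀ B : ℝ, 1 ≤ B →
      (Exceptions d T a b κ c B).Finite ∧
      ((Exceptions d T a b κ c B).ncard : ℝ) ≤ C * B ^ (d * (d + 1) * (1 - κ / q) + δ)) ∧
    (1 ≤ q → κ < q → κ < d + 1 → ∃ C B₀ : ℝ, 0 < C ∧ ∀ B : ℝ, B₀ ≤ B →
      C * B ^ (d * (d + 1 - κ)) ≤ ((Exceptions d T a b κ c B).ncard : ℝ)) := by
  have hp : Pool.Agent.H42.AP.Pts a b := ⟨hab, hne⟩
  simp only [exceptions_eq (show 1 ≤ d by omega)]
  refine ⟨fun δ hδ h1 h2 => ?_, fun δ hδ h1 h2 => ?_, fun h1 h2 h3 => ?_⟩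
  · obtain ⟨C, -, hC⟩ := Pool.Agent.H42.AP.up1' d q hd h1 a b hp T κ (d * c) δ hκ h2 hδ
    exact ⟨C, hC⟩
  · obtain ⟨C, -, hC⟩ := Pool.Agent.H42.AP.up2' d q hd h1 a b hp T κ (d * c) δ hκ h2 hδ
    exact ⟨C, hC⟩
  · exact Pool.Agent.H42.AP.low' d q hd h1 a b hp T κ (d * c) hκ h2 h3

end Pool.Agent.Results.MP_4d5ce1_nt.AllFieldsOfDegree
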