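import Pool.Agent.H79.AB.Every

/-!
# The abc conjecture and one closed point of the projective line with a given residue field

Let `K` be a number field and let `P ∈ K[X]` be a polynomial without multiple roots. The inequality of
the problem for the `q = deg P + 1` points `∞` and the zeros of `P`, and the points `x ∈ K` of the
projective line, is `(q - 2 - ε) h(x) ≤ ∑ log N(v) / [K : ℚ] + C`, where the sum is over the primes `v`
(outside of a finite set `T`) with `|x|_v > 1` or `|P(x)|_v < 1`. For `P = X (X - 1)` this is the abc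
conjecture over `K`. The zeros of `P` need not be in `K`.

(1) Let `g(x) = ∏ (x - a_i) ^ (e_i)` with distinct `a_i ∈ K` and integers `e_i ≠ 0`, `∑ e_i ≠ 0`. The
inequality over `K` for `0`, `∞` and the critical values of `g` (in the algebraic closure of `K`) is
equivalent to the abc conjecture over `K`.

(2) For every number field `L` there is a generator `γ` of `L` such that for every number field `K`
the inequality over `K` for `0`, `∞` and the conjugates of `γ` over `ℚ` is equivalent to the abc
conjecture over `K`.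

Proof. (1) `g` is ramified only over the given points, so the inequality for them implies the inequality
for their inverse image (`Pool.Agent.H79.AB.pull`), which contains the `a_i` and `∞`. The converse is
Belyi's theorem. (2) Let `L = ℚ(θ)`, `θ` integral with minimal polynomial `H` of degree `r ≥ 2`. For
distinct integers `a_0, …, a_r` there are integers `e_i` and `M ≠ 0` such that
`∑ e_i ∏_{j ≠ i} (X - a_j) = M H`, so that the critical points of `g` are the conjugates of `θ`. Let `q` be
a prime and `a_0` a simple zero of `H` modulo `q`, and let `H(a_i)`, `i ≥ 1`, be prime to `q`. Then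
`γ = g(θ)` is not a unit at exactly one prime of an algebraic closure of `ℚ_q`, so it generates `L`.
-/

set_option autoImplicit false
set_option linter.unusedSectionVars false

namespace Pool.Agent.Results.MP_4d5ce1_nt.EveryNumberField

open NumberField IsDedekindDomain Polynomial
open scoped IntermediateField

variable {K : Type} [Field K] [NumberField K]

/-- the absolute logarithmic height `h(x)` of `x`, that is of the point `[x : 1]` -/
noncomputable def height (x : K) : ℝ :=
  (∑ w : InfinitePlace K, (w.mult : ℝ) * Real.log (max 1 (w x)) +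
    ∑ᶠ v : HeightOneSpectrum (𝓞 K), Real.log (max 1 (FinitePlace.mk v x))) /
    (Module.finrank ℚ K : ℝ)

/-- the truncated counting function of `x` with respect to `∞` and the zeros of `P`: the sum of
`log N(v) / [K : ℚ]` over the primes `v` outside of `T` with `|x|_v > 1` or `|P(x)|_v < 1` -/
noncomputable def count (T : Set (HeightOneSpectrum (𝓞 K))) (P : K[X]) (x : K) : ℝ :=
  (∑ᶠ (v : HeightOneSpectrum (𝓞 K))
      (_ : v ∉ T ∧ (1 < FinitePlace.mk v x ∨ FinitePlace.mk v (P.eval x) < 1)),
    Real.log (Ideal.absNorm v.asIdeal : ℝ)) / (Module.finrank ℚ K : ℝ)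

/-- the inequality of the problem for `∞` and the zeros of `P`, in number `q = deg P + 1`, the primes of
`T` being left out: for all `ε > 0` there is `C` with `(q - 2 - ε) h(x) ≤ count T P x + C` for all
`x ∈ K` with `P(x) ≠ 0` -/
def Ineq (T : Set (HeightOneSpectrum (𝓞 K))) (P : K[X]) : Prop :=
  ∀ ε : ℝ, 0 < ε → ∃ C : ℝ, ∀ x : K, P.eval x ≠ 0 →
    ((P.natDegree : ℝ) - 1 - ε) * height x ≤ count T P x + C

open Pool.Agent.N757.RD Pool.Agent.N757.TL Pool.Agent.N746.RK

theorem height_mul (x : K) : dg K * height x = D x := by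
  have e : height x = D x / dg K := by
    unfold height
    rw [D_eq]
    have h1 : ∀ w : InfinitePlace K, Real.log (max 1 (w x)) = Real.posLog (w x) := fun w =>
      log_max_one _ (apply_nonneg _ _)
    have h2 : ∀ v : HeightOneSpectrum (𝓞 K), Real.log (max 1 (FinitePlace.mk v x)) =
        Real.posLog (FinitePlace.mk v x) := fun v => log_max_one _ (apply_nonneg _ _)
    simp only [h1, h2]
    rfl
  rw [e, mul_div_cancel₀ _ dg_pos.ne']

theorem count_mul (T : Set (HeightOneSpectrum (𝓞 K))) (P : K[X]) (x : K) :
    dg K * count T P x = W {v | v ∉ T ∧ v ∈ J P x} := by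
  rw [show count T P x = W {v | v ∉ T ∧ v ∈ J P x} / dg K from rfl, mul_div_cancel₀ _ dg_pos.ne']

theorem ineq_iff {T : Set (HeightOneSpectrum (𝓞 K))} (hT : T.Finite) {P : K[X]}
    (hP : 2 ≤ P.natDegree) : Ineq T P ↔ V P := by
  have hd := dg_pos (K := K)
  obtain ⟨q, hq⟩ : ∃ q : ℝ, q = (P.natDegree : ℝ) - 1 := ⟨_, rfl⟩
  have hq1 : 1 ≤ q := by
    have : (2 : ℝ) ≤ P.natDegree := by exact_mod_cast hP
    linarith
  have hWT := W_nonneg T
  have b1 : ∀ x : K, P.eval x ≠ 0 → dg K * count T P x ≤ W (J P x) := by
    intro x hx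
    rw [count_mul]
    exact W_mono (fun v hv => hv.2) (finite_J hx)
  have b2 : ∀ x : K, P.eval x ≠ 0 → W (J P x) ≤ dg K * count T P x + W T := by
    intro x hx
    rw [count_mul]
    have f1 : {v | v ∉ T ∧ v ∈ J P x}.Finite := (finite_J hx).subset fun v hv => hv.2
    refine (W_mono (B := {v | v ∉ T ∧ v ∈ J P x} ∪ T) ?_ (f1.union hT)).trans (W_union f1 hT)
    intro v hv
    by_cases h : v ∈ T
    · exact Or.inr h
    · exact Or.inl ⟨h, hv⟩
  constructor
  · intro h ε hε
    obtain ⟨C, hC⟩ := h (ε / (1 + ε)) (by positivity)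
    refine ⟨(1 + ε) * (dg K * |C|), fun x hx => ?_⟩
    have h1 := hC x hx
    have h2 : dg K * ((q - ε / (1 + ε)) * height x) ≤ dg K * (count T P x + C) := by
      rw [hq]
      exact mul_le_mul_of_nonneg_left h1 hd.le
    have h3 : (q - ε / (1 + ε)) * D x ≤ W (J P x) + dg K * |C| := by
      have e1 : dg K * ((q - ε / (1 + ε)) * height x) = (q - ε / (1 + ε)) * D x := by
        rw [← height_mul]; ring
      have e2 : dg K * C ≤ dg K * |C| := mul_le_mul_of_nonneg_left (le_abs_self C) hd.le
      have e3 := b1 x hx
      rw [e1] at h2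
      linarith
    have h4 : (1 + ε) * ((q - ε / (1 + ε)) * D x) ≤ (1 + ε) * (W (J P x) + dg K * |C|) :=
      mul_le_mul_of_nonneg_left h3 (by linarith)
    have h5 : (1 + ε) * ((q - ε / (1 + ε)) * D x) = (q + ε * (q - 1)) * D x := by
      field_simp
      ring
    have h6 : 0 ≤ ε * (q - 1) * D x := by
      have := D_nonneg x
      have h8 : 0 ≤ q - 1 := by linarith
      positivity
    rw [← hq]
    rw [h5] at h4
    nlinarith
  · intro h ε hε
    obtain ⟨C, hC⟩ := h (ε / q) (by positivity)
    refine ⟨(W T + |C|) / dg K, fun x hx => ?_⟩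
    have h1 := hC x hx
    rw [← hq] at h1
    rw [← hq]
    have hD := D_nonneg x
    have hq0 : 0 < q := by linarith
    have hW := W_nonneg (J P x)
    have h2 : (q - ε) * D x ≤ W (J P x) + |C| := by
      rcases le_or_gt q ε with h0 | h0
      · have : (q - ε) * D x ≤ 0 := mul_nonpos_of_nonpos_of_nonneg (by linarith) hD
        have := abs_nonneg C
        linarith
      · have e1 : (1 + ε / q) * ((q - ε) * D x) ≤ (1 + ε / q) * (W (J P x) + |C|) := by
          have e2 : (1 + ε / q) * ((q - ε) * D x) = (q - ε * ε / q) * D x := by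
            field_simp
            ring
          have e3 : 0 ≤ ε * ε / q * D x := by positivity
          have e4 : C ≤ (1 + ε / q) * |C| := by
            have := le_abs_self C
            have h9 : 0 ≤ ε / q * |C| := by positivity
            nlinarith
          rw [e2]
          nlinarith
        exact le_of_mul_le_mul_left e1 (by positivity)
    have h3 := b2 x hx
    have h4 : dg K * ((q - ε) * height x) ≤ dg K * (count T P x + (W T + |C|) / dg K) := by
      have e1 : dg K * ((q - ε) * height x) = (q - ε) * D x := by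
        rw [← height_mul]; ring
      have e2 : dg K * ((W T + |C|) / dg K) = W T + |C| := by field_simp
      rw [e1, mul_add, e2]
      linarith
    exact le_of_mul_le_mul_left h4 hd

open Pool.Agent.H79.AB

/-- The inequality for `∞` and the zeros of `P` is equivalent to the abc conjecture over `K`, and the
inequality for any larger set implies it. -/
def EquivABC (P : K[X]) : Prop :=
  ∀ T T' : Set (HeightOneSpectrum (𝓞 K)), T.Finite → T'.Finite →
    (Ineq T P ↔ Ineq T' (X * (X - 1) : K[X])) ∧
    ∀ Q : K[X], Q ≠ 0 → P ∣ Q → Ineq T Q → Ineq T' (X * (X - 1) : K[X])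

theorem equiv_of {P : K[X]} (hs : Squarefree P) (h2 : 2 ≤ P.natDegree) (h : V P → ABC K) :
    EquivABC P := by
  intro T T' hT hT'
  have e2 : 2 ≤ (X * (X - 1) : K[X]).natDegree := natDegree_three.ge
  refine ⟨?_, fun Q hQ hd hI => ?_⟩
  · rw [ineq_iff hT h2, ineq_iff hT' e2, V_three]
    exact ⟨h, of_ABC hs h2⟩
  · rw [ineq_iff hT (h2.trans (natDegree_le_of_dvd hd hQ))] at hI
    rw [ineq_iff hT' e2, V_three]
    exact h (V_dvd hQ h2 hd hI)

/-- The numerator `∑ e_i ∏_{j ≠ i} (X - a_j)` of the logarithmic derivative of `∏ (X - a_i) ^ (e_i)` -/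
noncomputable def numerator {r : ℕ} (a : Fin (r + 2) → K) (e : Fin (r + 2) → ℤ) : K[X] :=
  ∑ i, C ((e i : ℤ) : K) * ∏ j ∈ Finset.univ.erase i, (X - C (a j))

theorem numerator_eq {r : ℕ} (a : Fin (r + 2) → K) (e : Fin (r + 2) → ℤ) :
    numerator a e = mH a e := rfl

/-- divisibility by a squarefree polynomial -/
theorem dvd_of_closure {P R : K[X]} (hP : Squarefree P)
    (h : ∀ x : AlgebraicClosure K, aeval x P = 0 → aeval x R = 0) : P ∣ R := by
  rcases eq_or_ne R 0 with hR | hR
  · rw [hR]
    exact dvd_zero _
  have hinj := (algebraMap K (AlgebraicClosure K)).injective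
  have hP0 : P ≠ 0 := hP.ne_zero
  have hPm : P.map (algebraMap K (AlgebraicClosure K)) ≠ 0 := by
    rwa [Ne, Polynomial.map_eq_zero]
  have hRm : R.map (algebraMap K (AlgebraicClosure K)) ≠ 0 := by
    rwa [Ne, Polynomial.map_eq_zero]
  rw [← map_dvd_map' (algebraMap K (AlgebraicClosure K))]
  have hs : (P.map (algebraMap K (AlgebraicClosure K))).Splits := IsAlgClosed.splits _
  rw [hs.eq_prod_roots]
  have hlc : IsUnit (C (P.map (algebraMap K (AlgebraicClosure K))).leadingCoeff) :=
    isUnit_C.2 (isUnit_iff_ne_zero.2 (leadingCoeff_ne_zero.2 hPm))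
  rw [hlc.mul_left_dvd]
  have hsep : P.Separable := PerfectField.separable_iff_squarefree.2 hP
  have hnd : (P.map (algebraMap K (AlgebraicClosure K))).roots.Nodup := nodup_roots hsep.map
  rw [Multiset.prod_X_sub_C_dvd_iff_le_roots hRm, Multiset.le_iff_subset hnd]
  intro a ha
  rw [mem_roots hPm, IsRoot.def, eval_map_algebraMap] at ha
  rw [mem_roots hRm, IsRoot.def, eval_map_algebraMap]
  exact h a ha

/-- **One closed point with a given residue field.** -/
theorem result :
    -- (1) the critical values of `∏ (x - a_i) ^ (e_i)`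
    (∀ (K : Type) [Field K] [NumberField K] (r : ℕ) (a : Fin (r + 2) → K) (e : Fin (r + 2) → ℤ)
      (P : K[X]), Function.Injective a → (∀ i, e i ≠ 0) → ∑ i, e i ≠ 0 →
      Squarefree (numerator a e) → Squarefree P → P.eval 0 ≠ 0 →
      (∀ θ : AlgebraicClosure K, aeval θ (numerator a e) = 0 →
        aeval (∏ i, (θ - algebraMap K (AlgebraicClosure K) (a i)) ^ e i) P = 0) →
      EquivABC (X * P)) ∧
    -- (2) every number field
    (∀ (L : Type) [Field L] [NumberField L], ∃ γ : L, ℚ⟮γ⟯ = ⊤ ∧
      ∀ (K : Type) [Field K] [NumberField K],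
        EquivABC (X * (minpoly ℚ γ).map (algebraMap ℚ K))) := by
  constructor
  · intro K _ _ r a e P ha he hs hsq hP hP0 hcrit
    rw [numerator_eq] at hsq
    have hne : P ≠ 0 := hP.ne_zero
    have hHa : ∀ i, (mH a e).eval (a i) ≠ 0 := fun i => by
      rw [mH_eval]
      exact mul_ne_zero (by exact_mod_cast he i) (mE_ne ha i)
    have hθa : ∀ θ : AlgebraicClosure K, aeval θ (mH a e) = 0 →
        ∀ i, θ ≠ algebraMap K (AlgebraicClosure K) (a i) := by
      intro θ hθ i h
      rw [h, aeval_algebraMap_apply, FaithfulSMul.algebraMap_eq_zero_iff] at hθ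
      apply hHa i
      simpa using hθ
    have hdeg : (mH a e).natDegree = r + 1 := by
      rw [mH_deg a e hs, Fintype.card_fin]
      omega
    have hP1 : 1 ≤ P.natDegree := by
      obtain ⟨θ, hθ⟩ := IsAlgClosed.exists_aeval_eq_zero (AlgebraicClosure K) (mH a e) (by
        intro h
        have h' : (mH a e).natDegree = 0 := natDegree_eq_of_degree_eq_some h
        omega)
      have h1 := hcrit θ hθ
      by_contra h0
      obtain ⟨c, hc⟩ := natDegree_eq_zero.1 (show P.natDegree = 0 by omega)
      rw [← hc, aeval_C, FaithfulSMul.algebraMap_eq_zero_iff] at h1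
      rw [← hc, h1, C_0] at hne
      exact hne rfl
    have hd2 : 2 ≤ (X * P).natDegree := by
      rw [natDegree_mul X_ne_zero hne, natDegree_X]
      omega
    have hsqX : Squarefree (X * P) := by
      have hcop : IsCoprime X P := by
        rw [irreducible_X.coprime_iff_not_dvd, X_dvd_iff, coeff_zero_eq_eval_zero]
        exact hP0
      exact squarefree_mul_iff.2 ⟨hcop.isRelPrime, irreducible_X.squarefree, hP⟩
    refine equiv_of hsqX hd2 fun h => ?_
    refine mult ha he hs (by rw [Fintype.card_fin]; omega) hsq hP0 hP1 ?_ h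
    exact dvd_of_closure hsq fun θ hθ => crit_value (hθa θ hθ) (hcrit θ hθ)
  · intro L _ _
    obtain ⟨γ, h1, h2⟩ := every L
    refine ⟨γ, h1, fun K _ _ => ?_⟩
    obtain ⟨h3, h4, h5⟩ := h2 K
    exact equiv_of h3 h4 h5

end Pool.Agent.Results.MP_4d5ce1_nt.EveryNumberField
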