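import Pool.Agent.H38.ST.N6

/-!
# The inequality for finite subsets of the projective line with `ε = 0`: many points violate it

`K` is a number field, `α_1, …, α_q` are `q ≥ 3` distinct points of the projective line over `K`.
We show that, for every set `T` of primes and all large `X`, at least
`exp (c √(log X) / log log X)` points of height at most `X` satisfy
`∑_{v ∉ T} ∑_l λ⁽¹⁾_v(α_l, x) ≤ (q - 2) h(x) - c √(log X) / log log X`, and that these points can be
taken in `ℙ¹(ℚ)` if three of the `α_l` are the zeros of a linear form and of a quadratic form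
with rational coefficients (for instance a rational point and two conjugate quadratic points).
-/

set_option autoImplicit false

namespace Pool.Agent.Results.MP_4d5ce1_nt.ManyPointsWithoutEpsilon

open NumberField IsDedekindDomain

variable {K : Type} [Field K] [NumberField K]

/-- the absolute logarithmic height of the point `[x 0 : x 1]` (the height of Mathlib is relative
to `K`) -/
noncomputable def height (x : Fin 2 → K) : ℝ :=
  Height.logHeight x / (Module.finrank ℚ K : ℝ)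

/-- the sum over the primes `v ∉ T` and over `l` of the truncated local heights
`λ⁽¹⁾_v(α_l, x) = min (λ_v(α_l, x), log N(v) / [K : ℚ])` -/
noncomputable def counting (T : Set (HeightOneSpectrum (𝓞 K))) {q : ℕ} (α : Fin q → Fin 2 → K)
    (x : Fin 2 → K) : ℝ :=
  ∑ᶠ (v : HeightOneSpectrum (𝓞 K)) (_ : v ∉ T), ∑ l : Fin q,
    min
      (Real.log
          (max (FinitePlace.mk v (x 0)) (FinitePlace.mk v (x 1)) *
            max (FinitePlace.mk v (α l 0)) (FinitePlace.mk v (α l 1)) /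
            FinitePlace.mk v (x 0 * α l 1 - x 1 * α l 0)) /
        (Module.finrank ℚ K : ℝ))
      (Real.log (Ideal.absNorm v.asIdeal : ℝ) / (Module.finrank ℚ K : ℝ))

/-- the points of height at most `L`, different from all the `α_l`, with
`∑_{v ∉ T} ∑_l λ⁽¹⁾_v(α_l, x) ≤ (q - 2) h(x) - g` -/
def Violations (T : Set (HeightOneSpectrum (𝓞 K))) {q : ℕ} (α : Fin q → Fin 2 → K) (L g : ℝ) :
    Set (Projectivization K (Fin 2 → K)) :=
  {P | ∃ (x : Fin 2 → K) (hx : x ≠ 0), P = Projectivization.mk K x hx ∧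
    (∀ l, x 0 * α l 1 - x 1 * α l 0 ≠ 0) ∧ height x ≤ L ∧
    counting T α x ≤ ((q : ℝ) - 2) * height x - g}

/-- the points of the projective line with rational coordinates -/
def rationalPoints (K : Type) [Field K] [NumberField K] :
    Set (Projectivization K (Fin 2 → K)) :=
  {P | ∃ (r : Fin 2 → ℚ) (hr : (fun j => ((r j : ℚ) : K)) ≠ 0),
    P = Projectivization.mk K (fun j => ((r j : ℚ) : K)) hr}

/-- With some `c > 0`, for all large `X`, at least `exp (c √(log X) / log log X)` points of the set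
`Z` of height at most `X` satisfy
`∑_{v ∉ T} ∑_l λ⁽¹⁾_v(α_l, x) ≤ (q - 2) h(x) - c √(log X) / log log X` for all sets `T` of primes
(for `T = ∅`, hence for all `T`). -/
def ManyViolations {q : ℕ} (α : Fin q → Fin 2 → K) (Z : Set (Projectivization K (Fin 2 → K))) :
    Prop :=
  ∃ c : ℝ, 0 < c ∧ ∃ X₀ : ℝ, ∀ X : ℝ, X₀ ≤ X → ∃ S : Finset (Projectivization K (Fin 2 → K)),
    Real.exp (c * (√(Real.log X) / Real.log (Real.log X))) ≤ S.card ∧
    ∀ P ∈ S, P ∈ Z ∧ ∀ T : Set (HeightOneSpectrum (𝓞 K)),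
      P ∈ Violations T α (Real.log X) (c * (√(Real.log X) / Real.log (Real.log X)))

open Pool.Agent.H38.ST in
theorem of_concl {q : ℕ} (α : Fin q → Fin 2 → K) (G : Fin 2 → Fin 2 → 𝓞 K)
    (Z : Set (Projectivization K (Fin 2 → K)))
    (hZ : ∀ (s : ℤ × ℤ) (h : (pt G s : Fin 2 → K) ≠ 0), Projectivization.mk K (pt G s) h ∈ Z)
    (h : Concl α G) : ManyViolations α Z := by
  obtain ⟨c, hc, hev⟩ := h
  obtain ⟨X₀, hX₀⟩ := Filter.eventually_atTop.1 (Real.tendsto_log_atTop.eventually hev)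
  refine ⟨c, hc, X₀, fun X hX => ?_⟩
  obtain ⟨S, hS1, hS2⟩ := hX₀ X hX
  refine ⟨S, hS1, fun P hP => ?_⟩
  obtain ⟨s, h0, rfl, h1, h2, h3⟩ := hS2 P hP
  exact ⟨hZ s h0, fun T => ⟨_, h0, rfl, h1, h2, h3 T⟩⟩

/-- **The inequality with `ε = 0` is violated by many points.** Let `K` be a number field and
`α_1, …, α_q` (`q ≥ 3`) distinct points of the projective line over `K`.

(1) There is `c > 0` such that for all large `X` at least `exp (c √(log X) / log log X)` points `x`
of `ℙ¹(K)` of height at most `X` satisfy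
`∑_v ∑_l λ⁽¹⁾_v(α_l, x) ≤ (q - 2) h(x) - c √(log X) / log log X`.

(2) If one of the points is a zero of the linear form `l0 x + l1 y` and two further points are zeros
of the quadratic form `Q0 x² + Q1 x y + Q2 y²`, both forms with integral coefficients and not zero,
the same holds with points `x` of `ℙ¹(ℚ)`. -/
theorem result : ∀ (K : Type) [Field K] [NumberField K] (q : ℕ), 3 ≤ q →
    ∀ (α : Fin q → Fin 2 → K), (∀ i j, i ≠ j → α i 0 * α j 1 - α i 1 * α j 0 ≠ 0) →
      ManyViolations α Set.univ ∧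
      (∀ i : Fin 3 → Fin q, Function.Injective i → ∀ l0 l1 : ℤ, (l0 ≠ 0 ∨ l1 ≠ 0) →
        ∀ Q0 Q1 Q2 : ℤ, (Q0 ≠ 0 ∨ Q1 ≠ 0 ∨ Q2 ≠ 0) →
        (l0 : K) * α (i 0) 0 + l1 * α (i 0) 1 = 0 →
        (Q0 : K) * α (i 1) 0 ^ 2 + Q1 * (α (i 1) 0 * α (i 1) 1) + Q2 * α (i 1) 1 ^ 2 = 0 →
        (Q0 : K) * α (i 2) 0 ^ 2 + Q1 * (α (i 2) 0 * α (i 2) 1) + Q2 * α (i 2) 1 ^ 2 = 0 →
          ManyViolations α (rationalPoints K)) := by
  intro K _ _ q hq α hα
  constructor
  · obtain ⟨G, hG⟩ := Pool.Agent.H38.ST.general hq α hα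
    exact of_concl α G _ (fun _ _ => Set.mem_univ _) hG
  · intro i hi l0 l1 hl Q0 Q1 Q2 hQ h0 h1 h2
    obtain ⟨g, hg⟩ := Pool.Agent.H38.ST.rational α hα i hi l0 l1 hl Q0 Q1 Q2 hQ h0 h1 h2
    refine of_concl α _ _ (fun s h => ?_) hg
    have e : (Pool.Agent.H38.ST.pt (fun j k => ((g j k : ℤ) : 𝓞 K)) s : Fin 2 → K) =
        fun j => (((g j 0 * s.1 + g j 1 * s.2 : ℤ) : ℚ) : K) := by
      funext j
      unfold Pool.Agent.H38.ST.pt Pool.Agent.H38.ST.ptI
      simp
    refine ⟨fun j => ((g j 0 * s.1 + g j 1 * s.2 : ℤ) : ℚ), by rw [← e]; exact h, ?_⟩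
    congr 1

end Pool.Agent.Results.MP_4d5ce1_nt.ManyPointsWithoutEpsilon
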