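import Pool.Agent.H59.QI.Main

/-!
# The abc conjecture for finite subsets of the projective line over a number field: the points of
all heights which are integral, or nearly integral, with respect to one of the points

`K` is a number field of degree `d`, `T` a finite set of primes, `α_1, …, α_q` are `q ≥ 3` distinct
points of the projective line over `K`.
-/

set_option autoImplicit false

namespace Pool.Agent.Results.MP_4d5ce1_nt.QuasiIntegralPoints

open NumberField IsDedekindDomain Filter Topology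

variable {K : Type} [Field K] [NumberField K]

/-- `N_T(α, x)`: the sum over the primes `v ∉ T` of the truncated local heights
`λ⁽¹⁾_v(α, x) = min (λ_v(α, x), log N(v) / d)` -/
noncomputable def counting (T : Set (HeightOneSpectrum (𝓞 K))) (α x : Fin 2 → K) : ℝ :=
  ∑ᶠ (v : HeightOneSpectrum (𝓞 K)) (_ : v ∉ T),
    min
      (Real.log
          (max (FinitePlace.mk v (x 0)) (FinitePlace.mk v (x 1)) *
            max (FinitePlace.mk v (α 0)) (FinitePlace.mk v (α 1)) /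
            FinitePlace.mk v (x 0 * α 1 - x 1 * α 0)) /
        (Module.finrank ℚ K : ℝ))
      (Real.log (Ideal.absNorm v.asIdeal : ℝ) / (Module.finrank ℚ K : ℝ))

/-- the points `x` of the projective line over `K`, different from all the `α_l`, of whatever
height, with `N_T(α_i, x) ≤ log A` and `N_T(α_l, x) ≤ log B` for all `l ≠ i` -/
def Joint (T : Set (HeightOneSpectrum (𝓞 K))) {q : ℕ} (α : Fin q → Fin 2 → K) (i : Fin q)
    (A B : ℝ) : Set (Projectivization K (Fin 2 → K)) :=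
  {P | ∃ (x : Fin 2 → K) (hx : x ≠ 0), P = Projectivization.mk K x hx ∧
    (∀ l, x 0 * α l 1 - x 1 * α l 0 ≠ 0) ∧ counting T (α i) x ≤ Real.log A ∧
    ∀ l, l ≠ i → counting T (α l) x ≤ Real.log B}

/-- the points `x` of the projective line over `K`, different from all the `α_l`, of whatever
height, with `∑_l N_T(α_l, x) ≤ log X` and `N_T(α_i, x) ≤ log A` -/
def Total (T : Set (HeightOneSpectrum (𝓞 K))) {q : ℕ} (α : Fin q → Fin 2 → K) (i : Fin q)
    (X A : ℝ) : Set (Projectivization K (Fin 2 → K)) :=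
  {P | ∃ (x : Fin 2 → K) (hx : x ≠ 0), P = Projectivization.mk K x hx ∧
    (∀ l, x 0 * α l 1 - x 1 * α l 0 ≠ 0) ∧ ∑ l, counting T (α l) x ≤ Real.log X ∧
    counting T (α i) x ≤ Real.log A}

open Pool.Agent.Y730.QP Pool.Agent.TH876.Loc Pool.Agent.H59.QI in
theorem counting_eq (T : Set (HeightOneSpectrum (𝓞 K))) (α x : Fin 2 → K) :
    cnt1 T α x = (Module.finrank ℚ K : ℝ) * counting T α x := by
  classical
  have hd : (0 : ℝ) < Module.finrank ℚ K := by exact_mod_cast (Module.finrank_pos (R := ℚ) (M := K))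
  unfold counting cnt1 cnt
  rw [mul_finsum]
  refine finsum_congr fun v => ?_
  rw [finsum_eq_if, finsum_eq_if]
  split_ifs with hv
  · rw [mul_zero]
  rw [Fin.sum_univ_one, mul_min_of_nonneg _ _ hd.le, mul_div_cancel₀ _ hd.ne',
    mul_div_cancel₀ _ hd.ne']
  have e : x 0 * α 1 - x 1 * α 0 = -Pool.Agent.TH876.KR.form α x := by
    unfold Pool.Agent.TH876.KR.form
    ring
  have e2 : FinitePlace.mk v (x 0 * α 1 - x 1 * α 0) =
      FinitePlace.mk v (Pool.Agent.TH876.KR.form α x) := by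
    rw [e]
    exact (FinitePlace.mk v).1.map_neg _
  rw [e2, mul_comm (max (FinitePlace.mk v (x 0)) (FinitePlace.mk v (x 1)))]
  rfl

theorem form_iff {q : ℕ} (α : Fin q → Fin 2 → K) (x : Fin 2 → K) :
    (∀ l, x 0 * α l 1 - x 1 * α l 0 ≠ 0) ↔ ∀ i, Pool.Agent.TH876.KR.form (α i) x ≠ 0 := by
  refine forall_congr' fun l => ?_
  have e : x 0 * α l 1 - x 1 * α l 0 = -Pool.Agent.TH876.KR.form (α l) x := by
    unfold Pool.Agent.TH876.KR.form
    ring
  rw [e, Ne, neg_eq_zero]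

theorem count_iff (T : Set (HeightOneSpectrum (𝓞 K))) (α x : Fin 2 → K) {A : ℝ} (hA : 0 < A) :
    counting T α x ≤ Real.log A ↔
      Pool.Agent.H59.QI.cnt1 T α x ≤ Real.log (A ^ (Module.finrank ℚ K : ℝ)) := by
  have hd : (0 : ℝ) < Module.finrank ℚ K := by exact_mod_cast (Module.finrank_pos (R := ℚ) (M := K))
  rw [counting_eq, Real.log_rpow hA]
  exact (mul_le_mul_iff_right₀ hd).symm

theorem joint_eq (T : Set (HeightOneSpectrum (𝓞 K))) {q : ℕ} (α : Fin q → Fin 2 → K) (i : Fin q)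
    {A B : ℝ} (hA : 0 < A) (hB : 0 < B) : Joint T α i A B =
      Pool.Agent.H59.QI.PJ T α i (A ^ (Module.finrank ℚ K : ℝ)) (B ^ (Module.finrank ℚ K : ℝ)) := by
  ext P
  constructor
  · rintro ⟨x, hx, e, h1, h2, h3⟩
    exact ⟨x, hx, e, (form_iff α x).1 h1, (count_iff T _ x hA).1 h2,
      fun l hl => (count_iff T _ x hB).1 (h3 l hl)⟩
  · rintro ⟨x, hx, e, h1, h2, h3⟩
    exact ⟨x, hx, e, (form_iff α x).2 h1, (count_iff T _ x hA).2 h2,
      fun l hl => (count_iff T _ x hB).2 (h3 l hl)⟩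

theorem total_eq (T : Set (HeightOneSpectrum (𝓞 K))) {q : ℕ} (α : Fin q → Fin 2 → K) (i : Fin q)
    {X A : ℝ} (hX : 0 < X) (hA : 0 < A) : Total T α i X A =
      Pool.Agent.H59.QI.PT T α i (X ^ (Module.finrank ℚ K : ℝ)) (A ^ (Module.finrank ℚ K : ℝ)) := by
  have hd : (0 : ℝ) < Module.finrank ℚ K := by exact_mod_cast (Module.finrank_pos (R := ℚ) (M := K))
  have key : ∀ x : Fin 2 → K, ∑ l, counting T (α l) x ≤ Real.log X ↔
      ∑ l, Pool.Agent.H59.QI.cnt1 T (α l) x ≤ Real.log (X ^ (Module.finrank ℚ K : ℝ)) := by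
    intro x
    rw [Finset.sum_congr rfl fun l _ => counting_eq T (α l) x, ← Finset.mul_sum,
      Real.log_rpow hX]
    exact (mul_le_mul_iff_right₀ hd).symm
  ext P
  constructor
  · rintro ⟨x, hx, e, h1, h2, h3⟩
    exact ⟨x, hx, e, (form_iff α x).1 h1, (key x).1 h2, (count_iff T _ x hA).1 h3⟩
  · rintro ⟨x, hx, e, h1, h2, h3⟩
    exact ⟨x, hx, e, (form_iff α x).2 h1, (key x).2 h2, (count_iff T _ x hA).2 h3⟩

theorem alpha_ne {q : ℕ} (hq : 3 ≤ q) {α : Fin q → Fin 2 → K}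
    (hα : ∀ i j, i ≠ j → α i 0 * α j 1 - α i 1 * α j 0 ≠ 0) (i : Fin q) : α i ≠ 0 := by
  intro h
  obtain ⟨j, hj⟩ : ∃ j : Fin q, i ≠ j := by
    by_cases h : i = ⟨0, by omega⟩
    · refine ⟨⟨1, by omega⟩, ?_⟩
      rw [h]
      intro h'
      have := congrArg Fin.val h'
      simp at this
    · exact ⟨_, h⟩
  apply hα i j hj
  rw [h]
  simp

/-- the first part -/
theorem part_joint (K : Type) [Field K] [NumberField K] (T : Set (HeightOneSpectrum (𝓞 K)))
    (hT : T.Finite) (q : ℕ) (hq : 3 ≤ q) (α : Fin q → Fin 2 → K)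
    (hα : ∀ i j, i ≠ j → α i 0 * α j 1 - α i 1 * α j 0 ≠ 0) (i : Fin q) (δ : ℝ) (hδ : 0 < δ) :
    ∃ C B₀ : ℝ, ∀ A B : ℝ, 1 ≤ A → A ≤ B →
      (Joint T α i A B).Finite ∧
      ((Joint T α i A B).ncard : ℝ) ≤ C * (A * B) ^ ((Module.finrank ℚ K : ℝ) + δ) ∧
      (B₀ ≤ B → (A * B) ^ ((Module.finrank ℚ K : ℝ) - δ) ≤ ((Joint T α i A B).ncard : ℝ)) := by
  have hd : (0 : ℝ) < Module.finrank ℚ K := by exact_mod_cast (Module.finrank_pos (R := ℚ) (M := K))
  obtain ⟨d, hdd⟩ : ∃ d : ℝ, d = (Module.finrank ℚ K : ℝ) := ⟨_, rfl⟩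
  have hd1 : 1 ≤ d := by
    rw [hdd]
    exact_mod_cast (Module.finrank_pos (R := ℚ) (M := K))
  rw [← hdd] at hd ⊢
  obtain ⟨D, hD, hU⟩ := Pool.Agent.H59.QI.PJ_upper K T hT q hq α (alpha_ne hq hα) hα i
    (δ / (2 * d)) (by positivity)
  obtain ⟨B₀, hB₀, hL⟩ := Pool.Agent.H59.QI.PJ_lower K T hT q hq α (alpha_ne hq hα) hα i
    (min (δ / d) 1) (lt_min (by positivity) one_pos) (min_le_right _ _)
  refine ⟨D, B₀, fun A B hA hAB => ?_⟩
  have hB : 1 ≤ B := hA.trans hAB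
  have hA0 : 0 < A := by linarith
  have hB0 : 0 < B := by linarith
  have hAB1 : 1 ≤ A * B := one_le_mul_of_one_le_of_one_le hA hB
  have hAd : 1 ≤ A ^ d := Real.one_le_rpow hA hd.le
  have hBd : 1 ≤ B ^ d := Real.one_le_rpow hB hd.le
  obtain ⟨h1, h2⟩ := hU (A ^ d) (B ^ d) hAd hBd
  rw [joint_eq T α i hA0 hB0, ← hdd]
  refine ⟨h1, h2.trans ?_, fun hBB => ?_⟩
  · have e1 : A ^ d * B ^ d = (A * B) ^ d := (Real.mul_rpow hA0.le hB0.le).symm
    have e2 : (A ^ d * (B ^ d) ^ 2) ^ (δ / (2 * d)) ≤ (A * B) ^ δ := by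
      calc (A ^ d * (B ^ d) ^ 2) ^ (δ / (2 * d)) ≤ (((A * B) ^ d) ^ 2) ^ (δ / (2 * d)) := by
            refine Real.rpow_le_rpow (by positivity) ?_ (by positivity)
            rw [← e1]
            nlinarith [mul_nonneg (by linarith : (0 : ℝ) ≤ A ^ d - 1)
              (by positivity : (0 : ℝ) ≤ A ^ d * (B ^ d) ^ 2)]
        _ = (A * B) ^ δ := by
            rw [← Real.rpow_natCast, ← Real.rpow_mul (by positivity), ← Real.rpow_mul (by positivity)]
            congr 1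
            push_cast
            field_simp
    rw [e1, mul_assoc, add_comm d δ, Real.rpow_add (by positivity)]
    refine mul_le_mul_of_nonneg_left ?_ hD.le
    exact mul_le_mul_of_nonneg_right e2 (by positivity)
  · have hge : B₀ ≤ B ^ d := by
      refine hBB.trans ?_
      calc B = B ^ (1 : ℝ) := (Real.rpow_one B).symm
        _ ≤ _ := Real.rpow_le_rpow_of_exponent_le hB hd1
    have h3 := hL (A ^ d) (B ^ d) hAd (Real.rpow_le_rpow hA0.le hAB hd.le) hge
    refine le_trans ?_ h3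
    have e1 : A ^ d * B ^ d = (A * B) ^ d := (Real.mul_rpow hA0.le hB0.le).symm
    rw [e1, sub_eq_add_neg, add_comm d (-δ), Real.rpow_add (by positivity)]
    refine mul_le_mul_of_nonneg_right ?_ (by positivity)
    rw [← Real.rpow_mul hB0.le, Real.rpow_neg (by positivity), mul_neg, Real.rpow_neg hB0.le]
    refine inv_anti₀ (by positivity) ?_
    have h4 : d * min (δ / d) 1 ≤ δ := by
      calc d * min (δ / d) 1 ≤ d * (δ / d) := mul_le_mul_of_nonneg_left (min_le_left _ _) hd.le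
        _ = δ := by field_simp
    calc B ^ (d * min (δ / d) 1) ≤ B ^ δ := Real.rpow_le_rpow_of_exponent_le hB h4
      _ ≤ (A * B) ^ δ := Real.rpow_le_rpow hB0.le (le_mul_of_one_le_left hB0.le hA) hδ.le

/-- the second part -/
theorem part_total (K : Type) [Field K] [NumberField K] (T : Set (HeightOneSpectrum (𝓞 K)))
    (hT : T.Finite) (q : ℕ) (hq : 3 ≤ q) (α : Fin q → Fin 2 → K)
    (hα : ∀ i j, i ≠ j → α i 0 * α j 1 - α i 1 * α j 0 ≠ 0) (i : Fin q) (δ : ℝ) (hδ : 0 < δ) :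
    ∃ C X₀ : ℝ, 0 < C ∧ ∀ X A : ℝ, 1 ≤ A → A ^ q ≤ X →
      (Total T α i X A).Finite ∧
      ((Total T α i X A).ncard : ℝ) ≤
        C * (X ^ δ * (X * A ^ ((q : ℝ) - 2)) ^ ((Module.finrank ℚ K : ℝ) / ((q : ℝ) - 1))) ∧
      (X₀ ≤ X → X ^ (-δ) * (X * A ^ ((q : ℝ) - 2)) ^ ((Module.finrank ℚ K : ℝ) / ((q : ℝ) - 1)) ≤
        ((Total T α i X A).ncard : ℝ)) := by
  have hd : (0 : ℝ) < Module.finrank ℚ K := by exact_mod_cast (Module.finrank_pos (R := ℚ) (M := K))
  obtain ⟨d, hdd⟩ : ∃ d : ℝ, d = (Module.finrank ℚ K : ℝ) := ⟨_, rfl⟩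
  have hd1 : 1 ≤ d := by
    rw [hdd]
    exact_mod_cast (Module.finrank_pos (R := ℚ) (M := K))
  rw [← hdd] at hd ⊢
  have hq3 : (3 : ℝ) ≤ q := by exact_mod_cast hq
  have hq1 : (0 : ℝ) < (q : ℝ) - 1 := by linarith
  obtain ⟨D, hD, hU⟩ := Pool.Agent.H59.QI.PT_upper K T hT q hq α (alpha_ne hq hα) hα i
    (δ / d) (by positivity)
  obtain ⟨X₀, hX₀, hL⟩ := Pool.Agent.H59.QI.PT_lower K T hT q hq α (alpha_ne hq hα) hα i
    (min (δ / d) 1) (lt_min (by positivity) one_pos) (min_le_right _ _)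
  refine ⟨D, X₀, hD, fun X A hA hAX => ?_⟩
  have hX : 1 ≤ X := (one_le_pow₀ hA).trans hAX
  have hA0 : 0 < A := by linarith
  have hX0 : 0 < X := by linarith
  have hAd : 1 ≤ A ^ d := Real.one_le_rpow hA hd.le
  have hXd : 1 ≤ X ^ d := Real.one_le_rpow hX hd.le
  obtain ⟨h1, h2⟩ := hU (X ^ d) (A ^ d) hXd hAd
  have hmain : (X ^ d * (A ^ d) ^ ((q : ℝ) - 2)) ^ (1 / ((q : ℝ) - 1)) =
      (X * A ^ ((q : ℝ) - 2)) ^ (d / ((q : ℝ) - 1)) := by
    have e1 : (A ^ d) ^ ((q : ℝ) - 2) = (A ^ ((q : ℝ) - 2)) ^ d := by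
      rw [← Real.rpow_mul hA0.le, ← Real.rpow_mul hA0.le, mul_comm]
    rw [e1, ← Real.mul_rpow hX0.le (by positivity), ← Real.rpow_mul (by positivity)]
    congr 1
    ring
  rw [total_eq T α i hX0 hA0, ← hdd]
  refine ⟨h1, h2.trans (le_of_eq ?_), fun hXX => ?_⟩
  · rw [hmain, ← Real.rpow_mul hX0.le, mul_assoc]
    congr 3
    field_simp
  · have hge : X₀ ≤ X ^ d := by
      refine hXX.trans ?_
      calc X = X ^ (1 : ℝ) := (Real.rpow_one X).symm
        _ ≤ _ := Real.rpow_le_rpow_of_exponent_le hX hd1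
    have h3 := hL (X ^ d) (A ^ d) hge hAd (by
      rw [← Real.rpow_natCast, ← Real.rpow_mul hA0.le, mul_comm d, Real.rpow_mul hA0.le,
        Real.rpow_natCast]
      exact Real.rpow_le_rpow (by positivity) hAX hd.le)
    rw [hmain] at h3
    refine le_trans ?_ h3
    refine mul_le_mul_of_nonneg_right ?_ (by positivity)
    rw [← Real.rpow_mul hX0.le]
    refine Real.rpow_le_rpow_of_exponent_le hX ?_
    have h4 : d * min (δ / d) 1 ≤ δ := by
      calc d * min (δ / d) 1 ≤ d * (δ / d) := mul_le_mul_of_nonneg_left (min_le_left _ _) hd.le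
        _ = δ := by field_simp
    linarith

/-- **Points of all heights, nearly integral with respect to one of the points.** Let `K` be a
number field of degree `d`, `T` a finite set of primes, `α_1, …, α_q` (`q ≥ 3`) distinct points of
the projective line over `K`, and `1 ≤ i ≤ q`.

(1) Uniformly in `1 ≤ A ≤ B`, the number of the points `x` of whatever height with
`N_T(α_i, x) ≤ log A` and `N_T(α_l, x) ≤ log B` for `l ≠ i` is at most `C (A B) ^ (d + δ)` and, for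
`B ≥ X₀`, at least `(A B) ^ (d - δ)`.

(2) Uniformly in `1 ≤ A ≤ X ^ (1 / q)`, the number of the points `x` of whatever height with
`∑_l N_T(α_l, x) ≤ log X` and `N_T(α_i, x) ≤ log A` is at most
`C X ^ δ (X A ^ (q - 2)) ^ (d / (q - 1))` and, for `X ≥ X₀`, at least
`X ^ (-δ) (X A ^ (q - 2)) ^ (d / (q - 1))`.

(3) For `0 ≤ θ ≤ 1 / q` the number of the points `x` of whatever height with
`∑_l N_T(α_l, x) ≤ log X` and `N_T(α_i, x) ≤ θ log X` is `X ^ (d (1 + (q - 2) θ) / (q - 1) + o(1))`;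
for `θ = 0` these are the points that are integral with respect to `α_i` outside `T`. -/
theorem result : ∀ (K : Type) [Field K] [NumberField K] (T : Set (HeightOneSpectrum (𝓞 K))),
    T.Finite → ∀ (q : ℕ), 3 ≤ q → ∀ (α : Fin q → Fin 2 → K),
      (∀ i j, i ≠ j → α i 0 * α j 1 - α i 1 * α j 0 ≠ 0) → ∀ i : Fin q,
      (∀ δ : ℝ, 0 < δ → ∃ C X₀ : ℝ,
        (∀ A B : ℝ, 1 ≤ A → A ≤ B →
          (Joint T α i A B).Finite ∧
          ((Joint T α i A B).ncard : ℝ) ≤ C * (A * B) ^ ((Module.finrank ℚ K : ℝ) + δ) ∧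
          (X₀ ≤ B → (A * B) ^ ((Module.finrank ℚ K : ℝ) - δ) ≤ ((Joint T α i A B).ncard : ℝ))) ∧
        (∀ X A : ℝ, 1 ≤ A → A ^ q ≤ X →
          (Total T α i X A).Finite ∧
          ((Total T α i X A).ncard : ℝ) ≤
            C * (X ^ δ * (X * A ^ ((q : ℝ) - 2)) ^ ((Module.finrank ℚ K : ℝ) / ((q : ℝ) - 1))) ∧
          (X₀ ≤ X →
            X ^ (-δ) * (X * A ^ ((q : ℝ) - 2)) ^ ((Module.finrank ℚ K : ℝ) / ((q : ℝ) - 1)) ≤
              ((Total T α i X A).ncard : ℝ)))) ∧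
      (∀ θ : ℝ, 0 ≤ θ → θ ≤ 1 / q →
        Tendsto (fun X : ℝ => Real.log ((Total T α i X (X ^ θ)).ncard : ℝ) / Real.log X) atTop
          (𝓝 ((Module.finrank ℚ K : ℝ) * (1 + ((q : ℝ) - 2) * θ) / ((q : ℝ) - 1)))) := by
  intro K _ _ T hT q hq α hα i
  have hd : (0 : ℝ) < Module.finrank ℚ K := by exact_mod_cast (Module.finrank_pos (R := ℚ) (M := K))
  have hq3 : (3 : ℝ) ≤ q := by exact_mod_cast hq
  have hq1 : (0 : ℝ) < (q : ℝ) - 1 := by linarith
  refine ⟨fun δ hδ => ?_, fun θ hθ hθq => ?_⟩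
  · obtain ⟨C1, X1, h1⟩ := part_joint K T hT q hq α hα i δ hδ
    obtain ⟨C2, X2, hC2, h2⟩ := part_total K T hT q hq α hα i δ hδ
    refine ⟨max C1 C2, max X1 X2, fun A B hA hAB => ?_, fun X A hA hAX => ?_⟩
    · obtain ⟨a1, a2, a3⟩ := h1 A B hA hAB
      have hA0 : 0 < A := by linarith
      have hB0 : 0 < B := by linarith
      refine ⟨a1, a2.trans ?_, fun hB => a3 ((le_max_left _ _).trans hB)⟩
      exact mul_le_mul_of_nonneg_right (le_max_left _ _) (by positivity)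
    · obtain ⟨a1, a2, a3⟩ := h2 X A hA hAX
      have hA0 : 0 < A := by linarith
      have hX0 : 0 < X := lt_of_lt_of_le (by positivity) hAX
      refine ⟨a1, a2.trans ?_, fun hB => a3 ((le_max_right _ _).trans hB)⟩
      exact mul_le_mul_of_nonneg_right (le_max_right _ _) (by positivity)
  · obtain ⟨d, hdd⟩ : ∃ d : ℝ, d = (Module.finrank ℚ K : ℝ) := ⟨_, rfl⟩
    obtain ⟨e, he⟩ : ∃ e : ℝ, e = d * (1 + ((q : ℝ) - 2) * θ) / ((q : ℝ) - 1) := ⟨_, rfl⟩
    rw [← hdd, ← he]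
    rw [Metric.tendsto_atTop]
    intro ε hε
    obtain ⟨C, X₀, hC, h⟩ := part_total K T hT q hq α hα i (ε / 3) (by positivity)
    refine ⟨max (max 3 X₀) (Real.exp (3 * |Real.log C| / ε)), fun X hX => ?_⟩
    have hX3 : 3 ≤ X := ((le_max_left _ _).trans (le_max_left _ _)).trans hX
    have hXX : X₀ ≤ X := ((le_max_right _ _).trans (le_max_left _ _)).trans hX
    have hXe : Real.exp (3 * |Real.log C| / ε) ≤ X := (le_max_right _ _).trans hX
    have hX0 : 0 < X := by linarith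
    have hX1 : 1 ≤ X := by linarith
    have hlX : 0 < Real.log X := Real.log_pos (by linarith)
    have hlC : |Real.log C| ≤ ε / 3 * Real.log X := by
      have h1 := (Real.le_log_iff_exp_le hX0).2 hXe
      rw [div_le_iff₀ hε] at h1
      linarith
    have hA1 : 1 ≤ X ^ θ := Real.one_le_rpow hX1 hθ
    have hAX : (X ^ θ) ^ q ≤ X := by
      rw [← Real.rpow_natCast, ← Real.rpow_mul hX0.le]
      have hqp : (0 : ℝ) < q := by linarith
      have h1 : θ * q ≤ 1 := by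
        rw [le_div_iff₀ hqp] at hθq
        exact hθq
      calc X ^ (θ * (q : ℝ)) ≤ X ^ (1 : ℝ) := Real.rpow_le_rpow_of_exponent_le hX1 h1
        _ = X := Real.rpow_one X
    obtain ⟨-, a2, a3⟩ := h X (X ^ θ) hA1 hAX
    have a3 := a3 hXX
    rw [← hdd] at a2 a3
    have hY : (X * (X ^ θ) ^ ((q : ℝ) - 2)) ^ (d / ((q : ℝ) - 1)) = X ^ e := by
      have e1 : X * (X ^ θ) ^ ((q : ℝ) - 2) = X ^ (1 + ((q : ℝ) - 2) * θ) := by
        rw [← Real.rpow_mul hX0.le, Real.rpow_add hX0, Real.rpow_one, mul_comm θ]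
      rw [e1, ← Real.rpow_mul hX0.le, he]
      congr 1
      ring
    rw [hY, ← Real.rpow_add hX0] at a2 a3
    obtain ⟨n, hn⟩ : ∃ n : ℝ, n = ((Total T α i X (X ^ θ)).ncard : ℝ) := ⟨_, rfl⟩
    rw [← hn] at a2 a3 ⊢
    have hn0 : 0 < n := lt_of_lt_of_le (Real.rpow_pos_of_pos hX0 _) a3
    have b3 := Real.log_le_log (Real.rpow_pos_of_pos hX0 _) a3
    have b2 := Real.log_le_log hn0 a2
    rw [Real.log_rpow hX0] at b3
    rw [Real.log_mul hC.ne' (Real.rpow_pos_of_pos hX0 _).ne', Real.log_rpow hX0] at b2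
    have hlC' := (abs_le.1 hlC).2
    rw [Real.dist_eq, abs_lt]
    constructor
    · rw [lt_sub_iff_add_lt, lt_div_iff₀ hlX]
      nlinarith
    · rw [sub_lt_iff_lt_add, div_lt_iff₀ hlX]
      nlinarith

end Pool.Agent.Results.MP_4d5ce1_nt.QuasiIntegralPoints
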